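import Pool.Agent.W477.GM.Stms

/-! Project GM, task GM-GEN (helper253): the filter meets the dense sets of the ground model. -/

set_option maxHeartbeats 1000000
set_option linter.all false

namespace Pool.Agent.W477.GM.W253Gen

open Pool.Agent.W477.GM

theorem gen_holds (h : P_EQ) (h2 : P_FC) (h3 : P_PR) (h4 : P_HS) (hl : P_LIFT) (hco : P_COD)
    (hfi : P_FIN) (hc : P_CAX) (hk : P_KAP) (hs : P_SYSC) : P_GEN := by
  intro v hv hv0 hv1 hv2 hv3 p
  have hsys : SysAx SQ := hs hk Str slen hc.2
  have hE := h QQ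
  have hF := h2 QQ (HS SQ)
  have hP := h3 QQ
  have hH := h4 QQ SQ hsys
  have hL : LiftF := hl
  obtain ⟨hcod, _, hg, hb, hr⟩ := hco
  have hC := hcod QQ
  obtain ⟨d0, hd0, hd⟩ := hv3
  intro q hq hsub q1 hq1 hden
  rw [hF.ex]
  intro q2 hq2
  -- apply density to the check name of `q2.c`
  have hx : HS SQ (chk (cd q2.c)) := hH.chk _
  have hxb : fmem (chk (cd q2.c)) (v 0) q2 := by
    rw [hv0]
    refine hE.mcongr _ _ bN _ q2 (hE.refl _ _) (hE.symm _ _ _ (hb q2)) ?_
    rw [hC.mem_b]
    intro q3 hq3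
    exact ⟨q3, le_rfl, q2.c, hE.refl _ _⟩
  have h5 := hden (chk (cd q2.c)) hx q2 hq2 (by
    show fmem (Function.update v 4 (chk (cd q2.c)) 4) (Function.update v 4 (chk (cd q2.c)) 0) q2
    rw [Function.update_self, Function.update_of_ne (by norm_num)]
    exact hxb)
  rw [hF.ex] at h5
  obtain ⟨r, hr1, y, hy, h6⟩ := h5 q2 le_rfl
  rw [hF.and] at h6
  obtain ⟨h7, h8⟩ := h6
  have hv' : ∀ i, HS SQ (Function.update (Function.update v 4 (chk (cd q2.c))) 5 y i) := by
    intro i
    by_cases hi : i = 5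
    · subst hi; rw [Function.update_self]; exact hy
    · rw [Function.update_of_ne hi]
      by_cases hi' : i = 4
      · subst hi'; rw [Function.update_self]; exact hx
      · rw [Function.update_of_ne hi']; exact hv i
  rw [hfi QQ SQ hsys 5 4 1 (by norm_num) (by norm_num) (by norm_num) _ hv' r] at h8
  have h7' : fmem y (v 3) r := by
    have : fmem (Function.update (Function.update v 4 (chk (cd q2.c))) 5 y 5)
      (Function.update (Function.update v 4 (chk (cd q2.c))) 5 y 3) r := h7
    rw [Function.update_self, Function.update_of_ne (by norm_num),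
      Function.update_of_ne (by norm_num)] at this
    exact this
  rw [Function.update_self, Function.update_of_ne (by norm_num), Function.update_self,
    Function.update_of_ne (by norm_num), Function.update_of_ne (by norm_num), hv1] at h8
  have h9 : fmem (opN y (chk (cd q2.c))) rN r :=
    hE.mcongr _ _ _ _ r (hE.refl _ _) (hr r) h8
  rw [hC.mem_r] at h9
  obtain ⟨r1, hr1', c, d, hcd, hyc, hxd⟩ := h9 r le_rfl
  have hd' : q2.c = d := hC.inj _ _ ((hP.chk_eq _ _ _).1 hxd)
  rw [← hd'] at hcd
  -- `c ∈ d0`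
  have h10 : fmem (lift (chk (cd c))) (lift d0) r1 := by
    refine hE.mcongr y _ (v 3) _ r1 ?_ ?_ (hE.mmono _ _ _ _ hr1' h7')
    · exact hE.trans _ _ _ _ hyc (hE.symm _ _ _ (hL.chk _ _))
    · rw [hd]; exact hE.refl _ _
  rw [hL.fmem] at h10
  obtain ⟨s', hs', hlen⟩ := hc.2.cof c (r1.fin.toFinset.sup (fun j => j.2.1))
  let q3 : QQ :=
    { c := s'
      len := r1.len
      bit := r1.bit
      fin := r1.fin
      lt := r1.lt
      off := r1.off
      sup := fun j hj => by
        refine lt_of_le_of_lt ?_ hlen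
        have : j.2.1 ≤ r1.fin.toFinset.sup (fun j => j.2.1) :=
          Finset.le_sup (f := fun j : J => j.2.1) (r1.fin.mem_toFinset.2 hj)
        exact_mod_cast this }
  have hq3 : q3 ≤ q2 := by
    refine ⟨hs'.trans hcd, fun j => ?_⟩
    exact (hr1'.trans hr1).2 j
  have hpj : pj q3 = pj r1 := rfl
  refine ⟨q3, hq3, chk (cd c), hH.chk _, ?_⟩
  rw [hF.and]
  constructor
  · show fmem (Function.update v 4 (chk (cd c)) 4) (Function.update v 4 (chk (cd c)) 3) q3
    rw [Function.update_self, Function.update_of_ne (by norm_num), hd]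
    refine hE.mcongr (lift (chk (cd c))) _ _ _ q3 (hL.chk _ _) (hE.refl _ _) ?_
    rw [hL.fmem, hpj]
    exact h10
  · show fmem (Function.update v 4 (chk (cd c)) 4) (Function.update v 4 (chk (cd c)) 2) q3
    rw [Function.update_self, Function.update_of_ne (by norm_num), hv2, hg]
    intro q4 hq4
    exact ⟨q4, le_rfl, c, hq4.1.trans hs', hE.refl _ _⟩

end Pool.Agent.W477.GM.W253Gen
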